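import Pool.Agent.Helper79.DD.CoreX
import Pool.Agent.Helper79.AA.OdeExt
import Pool.Agent.Helper79.GC.Defs3

/-!
# UI: one window (helper79)
-/

open Polynomial

namespace Pool.Agent.Helper79.UI

open Pool.Agent.Helper79.GC Pool.Agent.Helper79.GX Pool.Agent.Helper79.AA Pool.Agent.Helper79.DD
  Pool.Agent.Helper37.GP

theorem betaF_comp {ι : Type} [Fintype ι] [DecidableEq ι] (T : ℚ[X]) (A : Matrix ι ι ℚ[X]) (a : ℚ)
    (j : ℕ) : betaF (T.comp (X + C a)) (A.map fun p => p.comp (X + C a)) j =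
      (betaF T A j).map fun p => p.comp (X + C a) := by
  have hd : ∀ p : ℚ[X], derivative (p.comp (X + C a)) = (derivative p).comp (X + C a) := by
    intro p
    rw [derivative_comp]
    simp
  induction j with
  | zero =>
    ext1 i k
    rw [betaF, betaF, Matrix.map_apply, Matrix.one_apply]
    split_ifs <;> simp
  | succ j ih =>
    ext1 i k
    rw [betaF, betaF, ih]
    simp only [Matrix.smul_apply, Matrix.add_apply, Matrix.sub_apply, Matrix.map_apply,
      Matrix.mul_apply, smul_eq_mul, hd, mul_comp, add_comp, sub_comp, C_comp, natCast_comp]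
    rw [← Polynomial.coe_compRingHom_apply (∑ l, betaF T A j i l * A l k), map_sum]
    simp only [Polynomial.coe_compRingHom_apply, mul_comp]

theorem gm_comp {ι : Type} [Fintype ι] [DecidableEq ι] (T : ℚ[X]) (A : Matrix ι ι ℚ[X]) (a : ℚ)
    (j : ℕ) (u : ℚ) : gm (T.comp (X + C a)) (A.map fun p => p.comp (X + C a)) j u =
      gm T A j (a + u) := by
  have h : ∀ p : ℚ[X], (p.comp (X + C a)).eval u = p.eval (a + u) := by
    intro p
    rw [eval_comp, eval_add, eval_X, eval_C, add_comm]
  ext1 i k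
  rw [gm, gm, Matrix.of_apply, Matrix.of_apply, betaF_comp, Matrix.map_apply, h, h]

theorem gr_comp {ι : Type} [Fintype ι] [DecidableEq ι] {T : ℚ[X]} {A : Matrix ι ι ℚ[X]} {a u : ℚ}
    {Q : ℝ} (h : Gr T A (a + u) Q) :
    Gr (T.comp (X + C a)) (A.map fun p => p.comp (X + C a)) u Q := by
  obtain ⟨C', hC⟩ := h
  refine ⟨C', fun J => ?_⟩
  obtain ⟨q, hq0, hq, hj⟩ := hC J
  refine ⟨q, hq0, hq, fun j hjJ x y => ?_⟩
  rw [gm_comp]
  exact hj j hjJ x y

/-- U4: one window. -/
theorem window {ι : Type} [Fintype ι] [DecidableEq ι] {c B E : ℕ}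
    (hcore : CoreC (Fintype.card ι) c B E) {T : ℚ[X]} {A : Matrix ι ι ℚ[X]} {U : Set ℂ}
    (hU : IsOpen U) (hU' : IsPreconnected U) {t₀ : ℝ} (ht : ∀ t : ℝ, t₀ < t → (t : ℂ) ∈ U)
    {z : ℂ → ι → ℂ} (hz : ∀ i, AnalyticOnNhd ℂ (fun t => z t i) U)
    (hode : ∀ t ∈ U, ∀ i, aeval t T * deriv (fun t => z t i) t = ∑ l, aeval t (A i l) * z t l)
    {s K : ℕ} (hs1 : 2 * t₀ < s) (hs2 : ∀ t : ℂ, aeval t T = 0 → 2 * ‖t‖ < s) (hK : 2 ≤ K)
    (hKs : 2 * K < s) (hKE : (K : ℝ) ^ E ≤ s) {Ξ : Finset ℤ} (hΞ : ∀ u ∈ Ξ, |u| ≤ K)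
    (hG : ∀ u ∈ Ξ, Gr T A ((s : ℚ) + u) ((s : ℝ) ^ c))
    (hbad : ∀ u ∈ Ξ, ∃ n : ℕ, (n : ℤ) = s + u ∧ Bad (fun (t : ℝ) i => z (t : ℂ) i) n) :
    Ξ.card ≤ B := by
  classical
  have hs0 : (0 : ℝ) < s := by exact_mod_cast (by omega : 0 < s)
  set R : ℝ := (s : ℝ) / 2 with hR
  have hR0 : 0 < R := by positivity
  set σ : ℂ := (s : ℂ) with hσ
  have hσn : ‖σ‖ = s := by rw [hσ, Complex.norm_natCast]
  have hTne : ∀ t ∈ Metric.ball σ R, aeval t T ≠ 0 := by
    intro t htb h0
    have h1 := hs2 t h0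
    rw [Metric.mem_ball, dist_eq_norm] at htb
    have h2 : ‖σ‖ ≤ ‖t‖ + ‖t - σ‖ := by
      calc ‖σ‖ = ‖t - (t - σ)‖ := by rw [sub_sub_cancel]
        _ ≤ _ := norm_sub_le _ _
    rw [hσn] at h2
    linarith
  -- the extension of the solution
  have hLan : ∀ i j : ι, AnalyticOnNhd ℂ (fun t : ℂ => aeval t (A i j) / aeval t T)
      (Metric.ball σ R) := by
    intro i j
    have hpol : ∀ q : ℚ[X], AnalyticOnNhd ℂ (fun s : ℂ => aeval s q) Set.univ := fun q =>
      DifferentiableOn.analyticOnNhd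
        (fun s _ => (q.hasDerivAt_aeval s).differentiableAt.differentiableWithinAt) isOpen_univ
    exact ((hpol _).mono (Set.subset_univ _)).div ((hpol _).mono (Set.subset_univ _)) hTne
  obtain ⟨y, hy1, hy2, hy3⟩ := exists_ode hR0 (L := fun i j t => aeval t (A i j) / aeval t T)
    hLan (z σ)
  have hyode : ∀ t ∈ Metric.ball σ R, ∀ i, aeval t T * deriv (fun t => y t i) t =
      ∑ l, aeval t (A i l) * y t l := by
    intro t htb i
    rw [hy2 t htb i, Finset.mul_sum]
    refine Finset.sum_congr rfl fun l _ => ?_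
    have := hTne t htb
    field_simp
  -- real points
  have hreal : ∀ x : ℝ, (s : ℝ) - R < x → x < s + R → (x : ℂ) ∈ U ∩ Metric.ball σ R := by
    intro x hx1 hx2
    refine ⟨ht x ?_, ?_⟩
    · rw [hR] at hx1
      linarith
    · rw [Metric.mem_ball, dist_eq_norm, hσ]
      have h1 : (x : ℂ) - (s : ℂ) = ((x - s : ℝ) : ℂ) := by push_cast; rfl
      rw [h1, Complex.norm_real, Real.norm_eq_abs, abs_lt]
      constructor <;> linarith
  set W : Set ℂ := U ∩ Metric.ball σ R with hW
  have hWo : IsOpen W := hU.inter Metric.isOpen_ball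
  set V : Set ℂ := connectedComponentIn W σ with hV
  have hVo : IsOpen V := hWo.connectedComponentIn
  have hVc : IsPreconnected V := isPreconnected_connectedComponentIn
  have hVW : V ⊆ W := connectedComponentIn_subset _ _
  have hSV : ∀ x : ℝ, (s : ℝ) - R < x → x < s + R → (x : ℂ) ∈ V := by
    have hSc : IsPreconnected ((fun x : ℝ => (x : ℂ)) '' Set.Ioo ((s : ℝ) - R) (s + R)) :=
      isPreconnected_Ioo.image _ Complex.continuous_ofReal.continuousOn
    have hσS : σ ∈ (fun x : ℝ => (x : ℂ)) '' Set.Ioo ((s : ℝ) - R) (s + R) := by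
      refine ⟨(s : ℝ), ⟨by linarith, by linarith⟩, ?_⟩
      simp [hσ]
    have hsub : (fun x : ℝ => (x : ℂ)) '' Set.Ioo ((s : ℝ) - R) (s + R) ⊆ W := by
      rintro _ ⟨x, hx, rfl⟩
      exact hreal x hx.1 hx.2
    intro x hx1 hx2
    exact hSc.subset_connectedComponentIn hσS hsub ⟨x, ⟨hx1, hx2⟩, rfl⟩
  have hσV : σ ∈ V := by
    have h1 := hSV (s : ℝ) (by linarith) (by linarith)
    rw [hσ]
    exact_mod_cast h1
  have hyz : ∀ t ∈ V, y t = z t := by
    refine ode_unique hVo hVc (L := fun i j t => aeval t (A i j) / aeval t T)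
      (fun i j => (hLan i j).mono (hVW.trans Set.inter_subset_right))
      (fun i => (hy1 i).mono (hVW.trans Set.inter_subset_right))
      (fun i => (hz i).mono (hVW.trans Set.inter_subset_left))
      (fun t htV i => hy2 t (hVW htV).2 i) (fun t htV i => ?_) (t₀ := σ) hσV hy3
    have h1 := hode t (hVW htV).1 i
    have h2 := hTne t (hVW htV).2
    have h3 : ∑ l, aeval t (A i l) / aeval t T * z t l =
        (aeval t T)⁻¹ * ∑ l, aeval t (A i l) * z t l := by
      rw [Finset.mul_sum]
      exact Finset.sum_congr rfl fun l _ => by rw [div_eq_mul_inv]; ring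
    rw [h3, ← h1, ← mul_assoc, inv_mul_cancel₀ h2, one_mul]
  -- the translated system
  set z' : ℂ → ι → ℂ := fun u => y (σ + u) with hz'
  set q₀ : ℚ[X] := X + C (s : ℚ) with hq₀
  have hcomp : ∀ (p : ℚ[X]) (u : ℂ), aeval u (p.comp q₀) = aeval (σ + u) p := by
    intro p u
    rw [aeval_comp, hq₀, map_add, aeval_X, aeval_C, hσ, add_comm]
    simp
  have hmemb : ∀ u ∈ Metric.ball (0 : ℂ) R, σ + u ∈ Metric.ball σ R := by
    intro u hu
    rw [Metric.mem_ball, dist_zero_right] at hu
    rw [Metric.mem_ball, dist_eq_norm, add_sub_cancel_left]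
    exact hu
  have hsys : IsSys (T.comp q₀) (A.map fun p => p.comp q₀) R z' := by
    refine ⟨fun k u hu => ?_, fun u hu k => ?_⟩
    · have h1 : AnalyticAt ℂ (fun t => y t k) (σ + u) := hy1 k _ (hmemb u hu)
      exact h1.fun_comp (analyticAt_const.add analyticAt_id)
    · have h1 := hyode _ (hmemb u hu) k
      have h2 : deriv (fun u => z' u k) u = deriv (fun t => y t k) (σ + u) :=
        deriv_comp_const_add (f := fun t => y t k) σ u
      rw [h2, hcomp, h1]
      refine Finset.sum_congr rfl fun l _ => ?_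
      rw [Matrix.map_apply, hcomp]
  have hKR : (K : ℝ) < R := by
    rw [hR]
    have : (2 * K : ℝ) < s := by exact_mod_cast hKs
    linarith
  have hK2 : (2 : ℝ) ≤ K := by exact_mod_cast hK
  refine hcore (ι := ι) le_rfl K (s : ℝ) R hK hKE (by rw [hR]; nlinarith) _ _ _ hsys Ξ hΞ
    (fun u hu => ?_) (fun u hu => gr_comp (hG u hu)) (fun u hu => ?_)
  · intro h0
    have h1 : aeval (((u : ℤ) : ℂ)) (T.comp q₀) = 0 := by
      have h2 : (((u : ℤ) : ℂ)) = algebraMap ℚ ℂ ((u : ℤ) : ℚ) := by simp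
      rw [h2, aeval_algebraMap_apply_eq_algebraMap_eval, h0, map_zero]
    rw [hcomp] at h1
    refine hTne _ (hmemb _ ?_) h1
    rw [Metric.mem_ball, dist_zero_right, Complex.norm_intCast]
    have h3 : |(u : ℝ)| ≤ K := by exact_mod_cast hΞ u hu
    linarith
  · obtain ⟨n, hn, l, hl1, hl2⟩ := hbad u hu
    have h3 : |(u : ℝ)| ≤ K := by exact_mod_cast hΞ u hu
    have h4 := abs_le.1 h3
    have hnr : (n : ℝ) = s + u := by exact_mod_cast hn
    have hnV : (n : ℂ) ∈ V := by
      have h5 := hSV (n : ℝ) (by linarith) (by linarith)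
      exact_mod_cast h5
    have hnc : σ + ((u : ℚ) : ℂ) = (n : ℂ) := by
      have h6 : (n : ℂ) = ((n : ℝ) : ℂ) := by simp
      rw [h6, hnr, hσ]
      push_cast
      rfl
    refine ⟨l, ?_, ?_⟩
    · have h6 : z' ((u : ℚ) : ℂ) = z (n : ℂ) := by
        rw [hz']
        simp only
        rw [hnc, hyz _ hnV]
      rw [h6]
      have h7 := hl1
      simp only [Complex.ofReal_natCast] at h7
      exact h7
    · rintro ⟨v, hv1, hv2⟩
      apply hl2
      refine ⟨fun k => (v k).comp (X - C (s : ℚ)), fun k => ?_, ?_⟩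
      · rw [eval_comp, eval_sub, eval_X, eval_C]
        have h8 : (n : ℚ) - (s : ℚ) = (u : ℚ) := by
          have : ((n : ℤ) : ℚ) = ((s + u : ℤ) : ℚ) := by rw [hn]
          push_cast at this
          rw [this]
          ring
        rw [h8]
        exact hv1 k
      · set g : ℂ → ℂ := fun t => ∑ k, aeval t ((v k).comp (X - C (s : ℚ))) * z t k with hg
        have hgan : AnalyticOnNhd ℂ g U := by
          intro t htU
          rw [hg]
          refine Finset.analyticAt_fun_sum _ fun k _ => ?_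
          have hp : AnalyticAt ℂ (fun t : ℂ => aeval t ((v k).comp (X - C (s : ℚ)))) t :=
            (DifferentiableOn.analyticOnNhd
              (fun t' _ => (((v k).comp (X - C (s : ℚ) : ℚ[X])).hasDerivAt_aeval
                t').differentiableAt.differentiableWithinAt) isOpen_univ) t (Set.mem_univ _)
          exact hp.mul (hz k t htU)
        have hev : ∀ (p : ℚ[X]) (t : ℂ), aeval t (p.comp (X - C (s : ℚ))) = aeval (t - σ) p := by
          intro p t
          rw [aeval_comp, map_sub, aeval_X, aeval_C, hσ]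
          simp
        have hg0 : ∀ t ∈ V, g t = 0 := by
          intro t htV
          have h9 : t - σ ∈ Metric.ball (0 : ℂ) R := by
            have := (hVW htV).2
            rw [Metric.mem_ball, dist_eq_norm] at this
            rw [Metric.mem_ball, dist_zero_right]
            exact this
          have h10 := hv2 _ h9
          rw [hg]
          simp only
          rw [← h10]
          refine Finset.sum_congr rfl fun k _ => ?_
          rw [hev, hz']
          simp only
          rw [add_sub_cancel, hyz t htV]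
        have hgU := hgan.eqOn_zero_of_preconnected_of_eventuallyEq_zero hU' (hVW hσV).1
          (by
            filter_upwards [hVo.mem_nhds hσV] with t htV
            exact hg0 t htV)
        filter_upwards [Filter.eventually_gt_atTop t₀] with t htt
        exact hgU (ht t htt)

end Pool.Agent.Helper79.UI
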