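import Pool.Agent.Helper79.EE.Num

/-!
# UI: the final count (helper91)
-/

namespace Pool.Agent.Helper79.UI

open Pool.Agent.Helper79.DD

/-- The two counts from the windows, fixed degree. -/
theorem count_one {F : Set ℕ} {s₀ E B : ℕ} (hE : 1 ≤ E)
    (h : ∀ s K : ℕ, s₀ ≤ s → 2 ≤ K → (K : ℝ) ^ E ≤ s →
      ∀ Ξ : Finset ℤ, (∀ u ∈ Ξ, |u| ≤ K) → (∀ u ∈ Ξ, ∃ n : ℕ, (n : ℤ) = s + u ∧ n ∈ F) →
        Ξ.card ≤ B) {θ C : ℝ} (h0 : 0 < θ) (h1 : 2 * (E : ℝ) * θ ≤ 1)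
    (hC : (s₀ : ℝ) + 4 + 3 * B + 4 ^ E ≤ C) :
    (∀ n : ℕ, 1 ≤ n →
      (Set.ncard {i : ℕ | n ≤ i ∧ (i : ℝ) ≤ n + (n : ℝ) ^ θ ∧ i ∈ F} : ℝ) ≤ C) ∧
      ∀ X : ℕ, 1 ≤ X → (Set.ncard {i : ℕ | i ≤ X ∧ i ∈ F} : ℝ) ≤ C * (X : ℝ) ^ (1 - θ) := by
  classical
  have hE1 : (1 : ℝ) ≤ E := by exact_mod_cast hE
  have hB0 : (0 : ℝ) ≤ B := Nat.cast_nonneg _
  have hs0 : (0 : ℝ) ≤ s₀ := Nat.cast_nonneg _
  have h4 : (0 : ℝ) < (4 : ℝ) ^ E := by positivity
  have hθ2 : θ ≤ 1 / 2 := by nlinarith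
  -- one window
  have key : ∀ s K : ℕ, s₀ ≤ s → 2 ≤ K → (K : ℝ) ^ E ≤ s →
      ∀ G : Finset ℕ, (∀ i ∈ G, s ≤ i ∧ i ≤ s + K ∧ i ∈ F) → G.card ≤ B := by
    intro s K hs hK hKs G hG
    have h2 := h s K hs hK hKs (G.image fun i : ℕ => (i : ℤ) - s) (by
      intro u hu
      obtain ⟨i, hi, rfl⟩ := Finset.mem_image.1 hu
      obtain ⟨g1, g2, -⟩ := hG i hi
      rw [abs_le]
      constructor <;> omega) (by
      intro u hu
      obtain ⟨i, hi, rfl⟩ := Finset.mem_image.1 hu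
      exact ⟨i, by ring, (hG i hi).2.2⟩)
    rwa [Finset.card_image_of_injective _ (fun a b hab => by
      have : (a : ℤ) - s = (b : ℤ) - s := hab
      omega)] at h2
  constructor
  · intro n hn
    have hn1 : (1 : ℝ) ≤ n := by exact_mod_cast hn
    have hn0 : (0 : ℝ) ≤ n := by linarith
    have hsub : {i : ℕ | n ≤ i ∧ (i : ℝ) ≤ n + (n : ℝ) ^ θ ∧ i ∈ F} ⊆
        (((Finset.range (n + n + 1)).filter fun i => n ≤ i ∧ (i : ℝ) ≤ n + (n : ℝ) ^ θ ∧ i ∈ F :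
          Finset ℕ) : Set ℕ) := by
      intro i hi
      have g1 : (n : ℝ) ^ θ ≤ n := by
        calc (n : ℝ) ^ θ ≤ (n : ℝ) ^ (1 : ℝ) :=
              Real.rpow_le_rpow_of_exponent_le hn1 (by linarith)
          _ = n := Real.rpow_one _
      have g2 : (i : ℝ) ≤ ((n + n : ℕ) : ℝ) := by
        push_cast
        linarith [hi.2.1]
      have g3 : i ≤ n + n := by exact_mod_cast g2
      rw [Finset.mem_coe, Finset.mem_filter, Finset.mem_range]
      exact ⟨by omega, hi⟩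
    set G : Finset ℕ := (Finset.range (n + n + 1)).filter fun i => n ≤ i ∧
      (i : ℝ) ≤ n + (n : ℝ) ^ θ ∧ i ∈ F with hGdef
    have hG : ∀ i ∈ G, n ≤ i ∧ (i : ℝ) ≤ n + (n : ℝ) ^ θ ∧ i ∈ F := fun i hi =>
      (Finset.mem_filter.1 hi).2
    have hcard : (Set.ncard {i : ℕ | n ≤ i ∧ (i : ℝ) ≤ n + (n : ℝ) ^ θ ∧ i ∈ F} : ℝ) ≤ G.card := by
      have := Set.ncard_le_ncard hsub (Finset.finite_toSet _)
      rw [Set.ncard_coe_finset] at this
      exact_mod_cast this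
    refine hcard.trans ?_
    by_cases hc : s₀ ≤ n ∧ (4 : ℝ) ^ E ≤ n
    · -- large
      set x : ℝ := (n : ℝ) ^ (1 / (2 * (E : ℝ))) with hx
      have hx2 : 2 ≤ x := by
        have e1 : (4 : ℝ) ^ E = (2 : ℝ) ^ (2 * (E : ℝ)) := by
          rw [Real.rpow_mul (by norm_num), Real.rpow_natCast]
          norm_num
        have e2 : ((2 : ℝ) ^ (2 * (E : ℝ))) ^ (1 / (2 * (E : ℝ))) = 2 := by
          rw [← Real.rpow_mul (by norm_num), mul_one_div_cancel (by positivity), Real.rpow_one]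
        calc (2 : ℝ) = ((2 : ℝ) ^ (2 * (E : ℝ))) ^ (1 / (2 * (E : ℝ))) := e2.symm
          _ ≤ x := Real.rpow_le_rpow (by positivity) (by rw [← e1]; exact hc.2) (by positivity)
      have hxx : x ^ 2 = (n : ℝ) ^ (1 / (E : ℝ)) := by
        rw [hx, ← Real.rpow_natCast, ← Real.rpow_mul hn0]
        congr 1
        push_cast
        field_simp
      have hK2 : 2 ≤ ⌊x ^ 2⌋₊ := by
        refine Nat.le_floor ?_
        push_cast
        nlinarith
      have hKE : ((⌊x ^ 2⌋₊ : ℕ) : ℝ) ^ E ≤ n := by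
        have e1 : ((⌊x ^ 2⌋₊ : ℕ) : ℝ) ≤ (n : ℝ) ^ (1 / (E : ℝ)) := by
          rw [← hxx]
          exact Nat.floor_le (by positivity)
        calc ((⌊x ^ 2⌋₊ : ℕ) : ℝ) ^ E ≤ ((n : ℝ) ^ (1 / (E : ℝ))) ^ E :=
              pow_le_pow_left₀ (Nat.cast_nonneg _) e1 _
          _ = n := by
            rw [← Real.rpow_natCast, ← Real.rpow_mul hn0, one_div_mul_cancel (by positivity),
              Real.rpow_one]
      have hnθ : (n : ℝ) ^ θ ≤ (⌊x ^ 2⌋₊ : ℕ) := by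
        have e1 : (n : ℝ) ^ θ ≤ x := by
          refine Real.rpow_le_rpow_of_exponent_le hn1 ?_
          rw [le_div_iff₀ (by positivity)]
          linarith
        have e2 := Nat.lt_floor_add_one (x ^ 2)
        nlinarith
      have h5 := key n ⌊x ^ 2⌋₊ hc.1 hK2 hKE G (fun i hi => ⟨(hG i hi).1, by
        have e1 : (i : ℝ) ≤ ((n + ⌊x ^ 2⌋₊ : ℕ) : ℝ) := by
          push_cast
          linarith [(hG i hi).2.1]
        exact_mod_cast e1, (hG i hi).2.2⟩)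
      have h6 : (G.card : ℝ) ≤ B := by exact_mod_cast h5
      linarith
    · -- small
      have h5 : G.card ≤ n + 1 := by
        have e1 : G ⊆ Finset.Icc n (n + n) := by
          intro i hi
          have e2 := Finset.mem_range.1 (Finset.mem_filter.1 hi).1
          rw [Finset.mem_Icc]
          exact ⟨(hG i hi).1, by omega⟩
        have e2 := Finset.card_le_card e1
        rw [Nat.card_Icc] at e2
        omega
      have h6 : (G.card : ℝ) ≤ n + 1 := by exact_mod_cast h5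
      have h7 : (n : ℝ) ≤ s₀ + 4 ^ E := by
        by_cases h8 : s₀ ≤ n
        · have h9 : ¬ (4 : ℝ) ^ E ≤ n := fun h9 => hc ⟨h8, h9⟩
          linarith [not_le.1 h9]
        · have h9 : (n : ℝ) ≤ s₀ := by exact_mod_cast (not_le.1 h8).le
          linarith
      linarith
  · intro X hX
    have hX1 : (1 : ℝ) ≤ X := by exact_mod_cast hX
    have hX0 : (0 : ℝ) ≤ X := by linarith
    have hP1 : (1 : ℝ) ≤ (X : ℝ) ^ (1 - θ) := Real.one_le_rpow hX1 (by linarith)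
    have hC0 : 0 ≤ C := by linarith
    set G : Finset ℕ := (Finset.range (X + 1)).filter fun i => i ∈ F with hGdef
    have hcard : Set.ncard {i : ℕ | i ≤ X ∧ i ∈ F} = G.card := by
      rw [← Set.ncard_coe_finset]
      congr 1
      ext i
      simp [hGdef]
    rw [hcard]
    by_cases hc : (4 : ℝ) ^ E ≤ X
    · set x : ℝ := (X : ℝ) ^ (1 / (2 * (E : ℝ))) with hx
      have hx2 : 2 ≤ x := by
        have e1 : (4 : ℝ) ^ E = (2 : ℝ) ^ (2 * (E : ℝ)) := by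
          rw [Real.rpow_mul (by norm_num), Real.rpow_natCast]
          norm_num
        have e2 : ((2 : ℝ) ^ (2 * (E : ℝ))) ^ (1 / (2 * (E : ℝ))) = 2 := by
          rw [← Real.rpow_mul (by norm_num), mul_one_div_cancel (by positivity), Real.rpow_one]
        calc (2 : ℝ) = ((2 : ℝ) ^ (2 * (E : ℝ))) ^ (1 / (2 * (E : ℝ))) := e2.symm
          _ ≤ x := Real.rpow_le_rpow (by positivity) (by rw [← e1]; exact hc) (by positivity)
      set K : ℕ := ⌊x⌋₊ with hKdef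
      have hK2 : 2 ≤ K := Nat.le_floor (by exact_mod_cast hx2)
      have hKx : (K : ℝ) ≤ x := Nat.floor_le (by linarith)
      have hxK : x ≤ 2 * K := by
        have e1 := Nat.lt_floor_add_one x
        have e2 : (2 : ℝ) ≤ K := by exact_mod_cast hK2
        linarith
      have hxE : x ^ E = (X : ℝ) ^ ((1 : ℝ) / 2) := by
        rw [hx, ← Real.rpow_natCast, ← Real.rpow_mul hX0]
        congr 1
        field_simp
      set S : ℕ := s₀ + ⌈(X : ℝ) ^ ((1 : ℝ) / 2)⌉₊ with hSdef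
      have hSE : ∀ s : ℕ, S ≤ s → (K : ℝ) ^ E ≤ s := by
        intro s hs
        have e1 : (K : ℝ) ^ E ≤ (X : ℝ) ^ ((1 : ℝ) / 2) := by
          rw [← hxE]
          exact pow_le_pow_left₀ (Nat.cast_nonneg _) hKx _
        have e2 : ((⌈(X : ℝ) ^ ((1 : ℝ) / 2)⌉₊ : ℕ) : ℝ) ≤ s := by
          exact_mod_cast le_trans (Nat.le_add_left _ _) hs
        exact e1.trans ((Nat.le_ceil _).trans e2)
      -- blocks
      have hcov : G ⊆ Finset.range S ∪ (Finset.range (X / K + 1)).biUnion fun j =>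
          G.filter fun i => S + j * K ≤ i ∧ i ≤ S + j * K + K := by
        intro i hi
        rw [Finset.mem_union, Finset.mem_range, Finset.mem_biUnion]
        by_cases h5 : i < S
        · exact Or.inl h5
        · refine Or.inr ⟨(i - S) / K, ?_, ?_⟩
          · rw [Finset.mem_range, Nat.lt_succ_iff]
            have e1 := Finset.mem_range.1 (Finset.mem_filter.1 hi).1
            exact Nat.div_le_div_right (by omega)
          · rw [Finset.mem_filter]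
            have e1 := Nat.div_add_mod (i - S) K
            have e2 := Nat.mod_lt (i - S) (by omega : 0 < K)
            rw [mul_comm] at e1
            exact ⟨hi, by omega, by omega⟩
      have hcb : G.card ≤ S + (X / K + 1) * B := by
        refine (Finset.card_le_card hcov).trans ((Finset.card_union_le _ _).trans ?_)
        rw [Finset.card_range]
        refine Nat.add_le_add_left ?_ _
        refine (Finset.card_biUnion_le_card_mul _ _ B fun j _ => ?_).trans (by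
          rw [Finset.card_range])
        refine key (S + j * K) K (by omega) hK2 (hSE _ (Nat.le_add_right _ _)) _ fun i hi => ?_
        have e1 := Finset.mem_filter.1 hi
        exact ⟨e1.2.1, e1.2.2, (Finset.mem_filter.1 e1.1).2⟩
      have hcb' : (G.card : ℝ) ≤ S + ((X / K : ℕ) + 1) * B := by exact_mod_cast hcb
      -- numbers
      have hXK : ((X / K : ℕ) : ℝ) ≤ 2 * (X : ℝ) ^ (1 - θ) := by
        have e1 : ((X / K : ℕ) : ℝ) ≤ (X : ℝ) / K := Nat.cast_div_le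
        have hx0 : 0 < x := by linarith
        have hK0 : (0 : ℝ) < K := by
          have : (2 : ℝ) ≤ K := by exact_mod_cast hK2
          linarith
        have e2 : (X : ℝ) / K ≤ 2 * ((X : ℝ) / x) := by
          rw [div_le_iff₀ hK0, mul_comm (2 : ℝ), mul_assoc, div_mul_eq_mul_div, le_div_iff₀ hx0]
          nlinarith
        have e3 : (X : ℝ) / x = (X : ℝ) ^ (1 - 1 / (2 * (E : ℝ))) := by
          rw [Real.rpow_sub (by linarith), Real.rpow_one]
        have e4 : (X : ℝ) ^ (1 - 1 / (2 * (E : ℝ))) ≤ (X : ℝ) ^ (1 - θ) := by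
          refine Real.rpow_le_rpow_of_exponent_le hX1 ?_
          have : θ ≤ 1 / (2 * (E : ℝ)) := by
            rw [le_div_iff₀ (by positivity)]
            linarith
          linarith
        linarith
      have hS : (S : ℝ) ≤ (s₀ + 2) * (X : ℝ) ^ (1 - θ) := by
        have e1 : ((⌈(X : ℝ) ^ ((1 : ℝ) / 2)⌉₊ : ℕ) : ℝ) < (X : ℝ) ^ ((1 : ℝ) / 2) + 1 :=
          Nat.ceil_lt_add_one (by positivity)
        have e2 : (X : ℝ) ^ ((1 : ℝ) / 2) ≤ (X : ℝ) ^ (1 - θ) :=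
          Real.rpow_le_rpow_of_exponent_le hX1 (by linarith)
        have e3 : (S : ℝ) = s₀ + (⌈(X : ℝ) ^ ((1 : ℝ) / 2)⌉₊ : ℕ) := by
          rw [hSdef]
          push_cast
          rfl
        rw [e3]
        nlinarith
      have h9 : (G.card : ℝ) ≤ (s₀ + 2 + 3 * B) * (X : ℝ) ^ (1 - θ) := by
        nlinarith
      refine h9.trans (mul_le_mul_of_nonneg_right ?_ (by linarith))
      linarith
    · have h5 : G.card ≤ X + 1 := by
        refine (Finset.card_filter_le _ _).trans ?_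
        rw [Finset.card_range]
      have h6 : (G.card : ℝ) ≤ X + 1 := by exact_mod_cast h5
      have h7 := not_le.1 hc
      have h8 : C * 1 ≤ C * (X : ℝ) ^ (1 - θ) := mul_le_mul_of_nonneg_left hP1 hC0
      linarith

/-- U7: the final count. -/
theorem count_u {E : ℕ → Set ℕ} {s₀ N₁ k c₁ : ℕ}
    (h : ∀ δ s K : ℕ, s₀ ≤ s → 2 ≤ K → (K : ℝ) ^ (cE (N₁ * (δ + 2) ^ k) + 3) ≤ s →
      ∀ Ξ : Finset ℤ, (∀ u ∈ Ξ, |u| ≤ K) → (∀ u ∈ Ξ, ∃ n : ℕ, (n : ℤ) = s + u ∧ n ∈ E δ) →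
        Ξ.card ≤ cB (c₁ * (δ + 1)) (N₁ * (δ + 2) ^ k)) :
    ∃ a : ℕ, ∀ δ : ℕ, (∀ n : ℕ, 1 ≤ n →
      (Set.ncard {i : ℕ | n ≤ i ∧ (i : ℝ) ≤ n + (n : ℝ) ^ (1 / ((δ : ℝ) + 2) ^ a) ∧ i ∈ E δ} : ℝ) ≤
        Real.exp (((δ : ℝ) + 2) ^ a)) ∧
      ∀ X : ℕ, 1 ≤ X → (Set.ncard {i : ℕ | i ≤ X ∧ i ∈ E δ} : ℝ) ≤
        Real.exp (((δ : ℝ) + 2) ^ a) * (X : ℝ) ^ (1 - 1 / ((δ : ℝ) + 2) ^ a) := by
  have hn : PB fun δ => N₁ * (δ + 2) ^ k := (PB.const N₁).mul (PB.base.pow k)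
  have hc : PB fun δ => c₁ * (δ + 1) :=
    (PB.const c₁).mul (PB.base.mono fun δ => Nat.le_succ _)
  have hE : PB fun δ => cE (N₁ * (δ + 2) ^ k) + 3 := EE.cE_PB hn
  have hB : EB fun δ => cB (c₁ * (δ + 1)) (N₁ * (δ + 2) ^ k) := cB_EB hc hn
  have h4 : EB fun δ => 4 ^ (cE (N₁ * (δ + 2) ^ k) + 3) := by
    refine EB.of ((PB.const 2).mul hE) fun δ => ?_
    rw [pow_mul]
    norm_num
  obtain ⟨a₁, h1⟩ : EB fun δ => s₀ + 4 + 3 * cB (c₁ * (δ + 1)) (N₁ * (δ + 2) ^ k) +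
      4 ^ (cE (N₁ * (δ + 2) ^ k) + 3) :=
    ((PB.const (s₀ + 4)).eb.add ((PB.const 3).eb.mul hB)).add h4
  obtain ⟨a₂, h2⟩ := (PB.const 2).mul hE
  refine ⟨a₁ + a₂, fun δ => ?_⟩
  have hL : (1 : ℝ) ≤ (δ : ℝ) + 2 := by
    have := Nat.cast_nonneg (α := ℝ) δ
    linarith
  have hLa : (0 : ℝ) < ((δ : ℝ) + 2) ^ (a₁ + a₂) := by positivity
  refine count_one (by omega) (h δ) (by positivity) ?_ ?_
  · rw [mul_one_div, div_le_one hLa]
    have e1 : ((2 * (cE (N₁ * (δ + 2) ^ k) + 3) : ℕ) : ℝ) ≤ ((δ : ℝ) + 2) ^ a₂ := by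
      exact_mod_cast h2 δ
    have e2 : ((δ : ℝ) + 2) ^ a₂ ≤ ((δ : ℝ) + 2) ^ (a₁ + a₂) :=
      pow_le_pow_right₀ hL (by omega)
    calc (2 : ℝ) * ((cE (N₁ * (δ + 2) ^ k) + 3 : ℕ) : ℝ) =
          ((2 * (cE (N₁ * (δ + 2) ^ k) + 3) : ℕ) : ℝ) := by push_cast; ring
      _ ≤ _ := e1.trans e2
  · have e1 : ((s₀ + 4 + 3 * cB (c₁ * (δ + 1)) (N₁ * (δ + 2) ^ k) +
        4 ^ (cE (N₁ * (δ + 2) ^ k) + 3) : ℕ) : ℝ) ≤ (2 : ℝ) ^ ((δ + 2) ^ a₁) := by
      exact_mod_cast h1 δ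
    have e2 : (2 : ℝ) ^ ((δ + 2) ^ a₁) ≤ (2 : ℝ) ^ ((δ + 2) ^ (a₁ + a₂)) :=
      pow_le_pow_right₀ (by norm_num) (Nat.pow_le_pow_right (by omega) (by omega))
    have e3 : (2 : ℝ) ^ ((δ + 2) ^ (a₁ + a₂)) ≤ Real.exp (((δ : ℝ) + 2) ^ (a₁ + a₂)) := by
      have f1 : (2 : ℝ) ≤ Real.exp 1 := by
        have := Real.add_one_le_exp (1 : ℝ)
        linarith
      have f2 : Real.exp (((δ : ℝ) + 2) ^ (a₁ + a₂)) = Real.exp 1 ^ ((δ + 2) ^ (a₁ + a₂)) := by
        rw [← Real.exp_nat_mul, mul_one]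
        congr 1
        push_cast
        rfl
      rw [f2]
      exact pow_le_pow_left₀ (by norm_num) f1 _
    refine le_trans (le_of_eq ?_) (e1.trans (e2.trans e3))
    push_cast
    ring

end Pool.Agent.Helper79.UI
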