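import Pool.Agent.Helper79.GX.MainK
import Pool.Agent.Helper79.EE.SymBad
import Pool.Agent.Helper79.EE.UniT
import Pool.Agent.Helper79.EE.Num
import Pool.Agent.Helper79.AA.Main2
import Pool.Agent.Helper71.UI.U1
import Pool.Agent.Helper54.UI.U2
import Pool.Agent.Helper4.UI.U3
import Pool.Agent.Helper79.UI.U4
import Pool.Agent.Helper54.UI.U5
import Pool.Agent.Helper54.UI.U6
import Pool.Agent.Helper79.UI.U7

/-!
# UI: integer points, uniformly in the degree of the relations: the leaves

`gal_gr` (helper71), `gr_lett`, `bad_sym`, `sym_ode` (helper54), `gr_tensQ` (helper4), `window` (helper79),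
`count_u` (helper91).
-/
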