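import Pool.Agent.Helper79.UI.Leaves
import Pool.Agent.Helper79.EE.Main

/-!
# UI: the general theorem over number fields and curves, uniformly in the degree (helper79)
-/

open Polynomial

namespace Pool.Agent.Helper79.UI

open Pool.Agent.Helper79.GC Pool.Agent.Helper79.GX Pool.Agent.Helper79.AA Pool.Agent.Helper79.DD
  Pool.Agent.Helper79.CU Pool.Agent.Helper37.GP Pool.Agent.Helper64.Per

/-- The bad integers of a window, for words. -/
theorem windowsL {L : Type} [Fintype L] [DecidableEq L] {T : ℤ[X]} (hT : T ≠ 0)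
    {A : Matrix L L ℚ[X]} {H : ℕ} (hG : Galochkin (T.map (Int.castRingHom ℚ)) A H)
    {U : Set ℂ} (hU : IsOpen U) (hU' : IsPreconnected U) {t₀ : ℝ}
    (ht : ∀ t : ℝ, t₀ < t → (t : ℂ) ∈ U) {P : ℂ → Matrix L L ℂ}
    (hP : ∀ p q, AnalyticOnNhd ℂ (fun t => P t p q) U)
    (hode : ∀ t ∈ U, ∀ p q, aeval t (T.map (Int.castRingHom ℚ)) * deriv (fun t => P t p q) t =
      ∑ r, aeval t (A p r) * P t r q) :
    ∃ s₀ k c₁ : ℕ, ∀ δ s K : ℕ, s₀ ≤ s → 2 ≤ K → (K : ℝ) ^ (cE (1 * (δ + 2) ^ k) + 3) ≤ s →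
      ∀ Ξ : Finset ℤ, (∀ u ∈ Ξ, |u| ≤ K) → (∀ u ∈ Ξ, ∃ n : ℕ, (n : ℤ) = s + u ∧
        Bad (wz (δ + 1) P) n) → Ξ.card ≤ cB (c₁ * (δ + 1)) (1 * (δ + 2) ^ k) := by
  obtain ⟨s₁, c, hgr⟩ := gal_gr hT hG
  set T' : ℚ[X] := T.map (Int.castRingHom ℚ) with hT'
  have hT'0 : T' ≠ 0 := by
    rw [hT', Ne, Polynomial.map_eq_zero_iff (RingHom.injective_int (Int.castRingHom ℚ))]
    exact hT
  -- the roots of `T'`
  obtain ⟨R, hR⟩ : ∃ R : ℕ, ∀ t : ℂ, aeval t T' = 0 → ‖t‖ ≤ R := by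
    have hfin : {u : ℂ | aeval u T' = 0}.Finite := by
      have h1 : T'.map (algebraMap ℚ ℂ) ≠ 0 :=
        (Polynomial.map_ne_zero_iff (algebraMap ℚ ℂ).injective).2 hT'0
      refine (finite_setOfPred_isRoot h1).subset fun u hu => ?_
      change IsRoot _ u
      rw [IsRoot, eval_map]
      exact hu
    obtain ⟨R, hR⟩ := (hfin.image fun u => ‖u‖).bddAbove
    obtain ⟨R', hR'⟩ := exists_nat_ge R
    exact ⟨R', fun u hu => (hR (Set.mem_image_of_mem _ hu)).trans hR'⟩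
  obtain ⟨R₂, hR₂⟩ := exists_nat_gt t₀
  refine ⟨max (max s₁ 2) (max (2 * (R + 1)) (2 * (R₂ + 1))),
    Fintype.card (Option (L × L)), c + 1, fun δ s K hs hK hKE Ξ hΞ hbad => ?_⟩
  simp only [max_le_iff] at hs
  obtain ⟨⟨hs1, hs2⟩, hs4, hs5⟩ := hs
  set k : ℕ := Fintype.card (Option (L × L)) with hk
  have hs1' : (1 : ℝ) ≤ s := by exact_mod_cast (by omega : 1 ≤ s)
  have hs2' : (2 : ℝ) ≤ s := by exact_mod_cast hs2
  have hKs : 2 * K < s := by
    have h1 : (K : ℝ) ^ 3 ≤ s := by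
      refine le_trans (pow_le_pow_right₀ (by exact_mod_cast (by omega : 1 ≤ K)) ?_) hKE
      omega
    have h2 : K ^ 3 ≤ s := by exact_mod_cast h1
    have h3 : 2 * K < K ^ 3 := by
      have h4 : K ^ 3 = K * K * K := by ring
      have h5 : 2 * 2 ≤ K * K := Nat.mul_le_mul hK hK
      have h6 : 2 * 2 * K ≤ K * K * K := Nat.mul_le_mul_right K h5
      omega
    omega
  have hroot : ∀ t : ℂ, aeval t T' = 0 → 2 * ‖t‖ < s := by
    intro t h0
    have h1 := hR t h0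
    have h2 : (2 * (R + 1) : ℝ) ≤ s := by exact_mod_cast hs4
    linarith
  have ht2 : 2 * t₀ < s := by
    have h2 : (2 * (R₂ + 1) : ℝ) ≤ s := by exact_mod_cast hs5
    linarith
  have hcard : Fintype.card (Wt (Option (L × L)) (δ + 1)) ≤ 1 * (δ + 2) ^ k := by
    rw [one_mul]
    exact card_Wt (δ + 1)
  have hcore : CoreC (Fintype.card (Wt (Option (L × L)) (δ + 1))) ((c + 1) * (δ + 1))
      (cB ((c + 1) * (δ + 1)) (1 * (δ + 2) ^ k)) (cE (1 * (δ + 2) ^ k) + 3) :=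
    EE.CoreC.mono (coreX _ _) hcard
  obtain ⟨hsan, hsode⟩ := sym_ode hU hP hode (δ + 1)
  refine window hcore hU hU' ht (z := fun t s => ∏ j, ltr (P t) (rep s j)) hsan hsode
    (s := s) (K := K) ht2 hroot hK hKs hKE hΞ (fun u hu => ?_) (fun u hu => ?_)
  · -- growth
    have hu1 := abs_le.1 (hΞ u hu)
    have hx1 : (s : ℤ) ≤ 2 * (s + u) := by omega
    have hx2 : (s : ℤ) + u ≤ 2 * s := by omega
    have h1 := hgr s hs1 (s + u) hx1 hx2
    have hsc : (1 : ℝ) ≤ (s : ℝ) ^ c := one_le_pow₀ hs1'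
    have h2 := gr_lett hsc h1
    have hTx : T'.eval (((s + u : ℤ)) : ℚ) ≠ 0 := by
      intro h0
      have h3 : aeval (((s + u : ℤ) : ℂ)) T' = 0 := by
        have h7 : (((s + u : ℤ) : ℂ)) = algebraMap ℚ ℂ ((s + u : ℤ) : ℚ) := by simp
        rw [h7, aeval_algebraMap_apply_eq_algebraMap_eval, h0, map_zero]
      have h4 := hroot _ h3
      rw [Complex.norm_intCast] at h4
      have h6 : (s : ℝ) ≤ 2 * ((s + u : ℤ) : ℝ) := by exact_mod_cast hx1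
      have h7 := le_abs_self (((s + u : ℤ) : ℝ))
      linarith
    have h3 := gr_tensQ hTx hsc h2 δ
    have h4 := gr_q (cls_rep (β := Option (L × L)) (r := δ + 1)) (tens_qinv (lett A))
      (one_le_pow₀ (by linarith : (1 : ℝ) ≤ 2 * (s : ℝ) ^ c)) h3
    have h5 := BB.gr_mono (Q' := (s : ℝ) ^ ((c + 1) * (δ + 1))) h4 (by positivity) (by
      rw [pow_mul]
      refine pow_le_pow_left₀ (by positivity) ?_ _
      rw [pow_succ, mul_comm]
      exact mul_le_mul_of_nonneg_left hs2' (by positivity))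
    have h6 : (((s : ℤ) + u : ℤ) : ℚ) = (s : ℚ) + u := by push_cast; ring
    rw [← h6]
    exact h5
  · obtain ⟨n, hn, hb⟩ := hbad u hu
    exact ⟨n, hn, bad_sym hb⟩

/-- The bad integers of a window. -/
theorem mainK1U {ι : Type} [Fintype ι] [DecidableEq ι] [Nonempty ι] {κ : IntermediateField ℚ Qbar}
    [FiniteDimensional ℚ κ] {m : ℕ}
    {T : ℤ[X]} (hT : T ≠ 0) {A : Matrix (Fin m × ι) (Fin m × ι) (Polynomial κ)}
    (hG : ∃ H : ℕ, GalF (T.map (Int.castRingHom κ)) A H)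
    {U : Set ℂ} (hU : IsOpen U) (hU' : IsPreconnected U) {t₀ : ℝ}
    (ht : ∀ t : ℝ, t₀ < t → (t : ℂ) ∈ U) {w : ℂ → ℂ} (hw : AnalyticOnNhd ℂ w U)
    {f : Fin m → Polynomial κ}
    (hf : ∀ t ∈ U, w t ^ m = ∑ l : Fin m, aeval t (f l) * w t ^ (l : ℕ))
    {V : ℂ → Matrix (Fin m × ι) ι ℂ} (hV : ∀ b k, AnalyticOnNhd ℂ (fun t => V t b k) U)
    (hode : ∀ t ∈ U, ∀ b k, aeval t T * deriv (fun t => V t b k) t =
      ∑ c, aeval t (A b c) * V t c k)
    {Z : Matrix (Fin m × ι) (Fin m × ι) (Polynomial κ)} (hZ : Z.det ≠ 0)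
    {P : ℂ → Matrix ι ι ℂ}
    (hP : ∀ t ∈ U, ∀ (l : Fin m) (a k : ι),
      w t ^ (l : ℕ) * P t a k = ∑ b, aeval t (Z (l, a) b) * V t b k)
    (hdet : ∀ t ∈ U, IsUnit (P t).det) :
    ∃ s₀ k c₁ : ℕ, ∀ δ s K : ℕ, s₀ ≤ s → 2 ≤ K → (K : ℝ) ^ (cE (1 * (δ + 2) ^ k) + 3) ≤ s →
      ∀ Ξ : Finset ℤ, (∀ u ∈ Ξ, |u| ≤ K) → (∀ u ∈ Ξ, ∃ n : ℕ, (n : ℤ) = s + u ∧
        ((n : ℂ) ∈ U ∧ HasRelationC U w P (n : ℂ) κ δ)) →
        Ξ.card ≤ cB (c₁ * (δ + 1)) (1 * (δ + 2) ^ k) := by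
  classical
  obtain ⟨H, hG⟩ := hG
  obtain ⟨J, _, _, ω, hω⟩ := exists_basis κ
  have haev : ∀ t : ℂ, aeval t (T.map (Int.castRingHom ℚ)) = aeval t T := fun t => by
    rw [aeval_def, aeval_def, eval₂_map]
    congr 1
  obtain ⟨n₀, hn₀⟩ := eval_ne_large hZ
  obtain ⟨s₁, k, c₁, h⟩ := windowsL hT (res_gal ω hω hG) hU hU' ht
    (P := Vt (fun j => ω j) V) (by
      intro p q
      have h1 : (fun t => Vt (fun j => ω j) V t p q) =
        fun t => ((ω p.1 : Qbar) : ℂ) * V t p.2 q.2.2 := rfl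
      rw [h1]
      exact analyticOnNhd_const.mul (hV _ _)) (by
      intro t htU p q
      have h1 : DifferentiableAt ℂ (fun t => V t p.2 q.2.2) t := (hV _ _ t htU).differentiableAt
      have h2 : deriv (fun t => Vt (fun j => ω j) V t p q) t =
          ((ω p.1 : Qbar) : ℂ) * deriv (fun t => V t p.2 q.2.2) t :=
        deriv_const_mul _ h1
      have h3 := hode t htU p.2 q.2.2
      have h5 := res_eval ω A (fun b => V t b q.2.2) t p
      rw [haev, h2]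
      have h6 : ∑ r, aeval t (resM ω A p r) * Vt (fun j => ω j) V t r q =
          ((ω p.1 : Qbar) : ℂ) * (aeval t T * deriv (fun t => V t p.2 q.2.2) t) := by
        rw [h3, ← h5]
        rfl
      rw [h6]
      ring)
  refine ⟨max s₁ (2 * (n₀ + 1)), k, c₁, fun δ s K hs hK hKE Ξ hΞ hbad => ?_⟩
  rw [max_le_iff] at hs
  obtain ⟨hs1, hs3⟩ := hs
  have hKs : 2 * K < s := by
    have h1 : (K : ℝ) ^ 3 ≤ s := by
      refine le_trans (pow_le_pow_right₀ (by exact_mod_cast (by omega : 1 ≤ K)) ?_) hKE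
      omega
    have h2 : K ^ 3 ≤ s := by exact_mod_cast h1
    have h3 : 2 * K < K ^ 3 := by
      have h4 : K ^ 3 = K * K * K := by ring
      have h5 : 2 * 2 ≤ K * K := Nat.mul_le_mul hK hK
      have h6 : 2 * 2 * K ≤ K * K * K := Nat.mul_le_mul_right K h5
      omega
    omega
  refine h δ s K hs1 hK hKE Ξ hΞ fun u hu => ?_
  obtain ⟨n, hn, hnU, hrel⟩ := hbad u hu
  refine ⟨n, hn, ?_⟩
  have hu1 := abs_le.1 (hΞ u hu)
  have hnn : n₀ ≤ n := by omega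
  exact rel_badK ω hU hU' ht hw hf hV hP (hn₀ n hnn) hnU (hdet _ hnU) hrel

end Pool.Agent.Helper79.UI
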