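import Pool.Agent.Helper79.UI.Main1
import Pool.Agent.Helper79.GA.MainV2

/-!
# UI: assembly, uniformly in the degree of the relations (helper79)

The text of `GA/MainV2.lean` with `mainK1U` in the place of `mainK1`.
-/

open Polynomial Pool.Agent.Helper64.Per

namespace Pool.Agent.Helper79.UI

open Pool.Agent.Helper79.CU Pool.Agent.Helper79.SE Pool.Agent.Helper79.GX Pool.Agent.Helper79.GA

/-- The main theorem. -/
theorem mainGVU {κ : IntermediateField ℚ Qbar} [FiniteDimensional ℚ κ] {T : κ[X]}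
    (hT : T ≠ 0) {ι₀ : Type} [Fintype ι₀] [DecidableEq ι₀] {A₀ : Matrix ι₀ ι₀ κ[X]}
    (hA₀ : MobTame T A₀) {μ r : ℕ} {ι : Type} [Fintype ι] [DecidableEq ι] [Nonempty ι]
    (E : SubTensor T A₀ μ r ι) {a b c e : κ}
    (h : a * e - b * c ≠ 0) {U : Set ℂ} (hU : IsOpen U) (hU' : IsPreconnected U) {x₀ : ℝ}
    (hx : ∀ x : ℝ, x₀ < x → algebraMap κ ℂ c * (x : ℂ) + algebraMap κ ℂ e ≠ 0 ∧
      mobv a b c e (x : ℂ) ∈ U) {w : ℂ → ℂ} (hw : IsBranchOf κ U μ w)
    {P : ℂ → Matrix ι ι ℂ} (hP : IsPeriodST E U w P) (hdet : ∀ t ∈ U, IsUnit (P t).det)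
    : ∃ m : ℕ, ∀ δ : ℕ, (∀ n : ℕ, 1 ≤ n →
      (Set.ncard {i : ℕ | n ≤ i ∧ (i : ℝ) ≤ n + (n : ℝ) ^ (1 / ((δ : ℝ) + 2) ^ m) ∧
        i ∈ {i : ℕ | mobv a b c e (i : ℂ) ∈ U ∧
          HasRelationC U w P (mobv a b c e (i : ℂ)) κ δ}} : ℝ) ≤
        Real.exp (((δ : ℝ) + 2) ^ m)) ∧
      ∀ X : ℕ, 1 ≤ X → (Set.ncard {i : ℕ | i ≤ X ∧ i ∈ {i : ℕ | mobv a b c e (i : ℂ) ∈ U ∧
          HasRelationC U w P (mobv a b c e (i : ℂ)) κ δ}} : ℝ) ≤
        Real.exp (((δ : ℝ) + 2) ^ m) * (X : ℝ) ^ (1 - 1 / ((δ : ℝ) + 2) ^ m) := by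
  have : Algebra.IsAlgebraic ℚ κ := inferInstance
  obtain ⟨g', V, cc, hV, hPV⟩ := hP
  obtain ⟨f, hf⟩ := hw.eqn
  have hxU := hx (x₀ + 1) (by linarith)
  obtain ⟨⟨m₀, hm₀⟩⟩ : Nonempty (Fin μ) := by
    by_contra h1
    have h2 : μ = 0 := by
      by_contra h3
      exact h1 ⟨⟨0, Nat.pos_of_ne_zero h3⟩⟩
    subst h2
    have h3 := hf _ hxU.2
    simp at h3
  have : Nonempty (Fin μ × ι) := ⟨(⟨m₀, hm₀⟩, Classical.arbitrary ι)⟩
  obtain ⟨Z, T₃, A, N, E₁, hZ, hG, hT₃, hdeg, hco, hexp, hTE, hBE, hTne, hid⟩ :=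
    alg_mob hT hA₀ E h
  set J : ℂ → ℂ := fun u => algebraMap κ ℂ c * u + algebraMap κ ℂ e with hJ
  set g : ℂ → ℂ := fun u => mobv a b c e u with hg
  -- the functions `W = M V^{⊗ r} c`
  set W : ℂ → Matrix (Fin μ × ι) ι ℂ := fun t p k =>
    ∑ I, aeval t (E.M p I) * (tpow r (V t) * cc) I k with hW
  have hWP : ∀ t ∈ U, ∀ (l : Fin μ) (x y : ι), w t ^ (l : ℕ) * P t x y = W t (l, x) y := hPV
  have hWode : ∀ t ∈ U, ∀ p k, DifferentiableAt ℂ (fun t => W t p k) t ∧
      aeval t T * deriv (fun t => W t p k) t = ∑ q, aeval t (E.B p q) * W t q k := by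
    intro t ht p k
    exact sub_ode (fun i k => (hV t ht i k).1) (fun i k => (hV t ht i k).2) E.stable cc p k
  have hPan : ∀ x y, AnalyticOnNhd ℂ (fun t => P t x y) U := by
    intro x y
    refine DifferentiableOn.analyticOnNhd (fun t ht => ?_) hU
    have h1 : (fun t => P t x y) =ᶠ[nhds t] fun t => W t (⟨0, by omega⟩, x) y := by
      filter_upwards [hU.mem_nhds ht] with z hz
      have := hWP z hz ⟨0, by omega⟩ x y
      rwa [pow_zero, one_mul] at this
    exact (((hWode t ht _ _).1).congr_of_eventuallyEq h1).differentiableWithinAt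
  -- the bad points
  set T₃' : κ[X] := T₃.map (Int.castRingHom κ) with hT₃'
  have hT₃'0 : T₃' ≠ 0 := by
    rw [hT₃', Ne, Polynomial.map_eq_zero_iff (RingHom.injective_int (Int.castRingHom κ))]
    exact hT₃
  set ℓ : κ[X] := C c * X + C e with hℓ
  have hℓ0 : ℓ ≠ 0 := by
    intro h3
    have h4 := congrArg (fun p => coeff p 1) h3
    have h5 := congrArg (fun p => coeff p 0) h3
    simp [hℓ] at h4 h5
    rw [h4, h5] at h
    simp at h
  have hℓu : ∀ u : ℂ, aeval u ℓ = J u := fun u => by simp [hℓ, hJ]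
  set q : κ[X] := ℓ * (hmg a b c e E₁ T * (Z.det * T₃')) with hq
  have hq0 : q ≠ 0 := mul_ne_zero hℓ0 (mul_ne_zero hTne (mul_ne_zero hZ hT₃'0))
  have hqu : ∀ u : ℂ, aeval u q ≠ 0 → J u ≠ 0 ∧ aeval (g u) T ≠ 0 ∧ aeval u Z.det ≠ 0 ∧
      aeval u T₃' ≠ 0 := by
    intro u hu
    rw [hq, map_mul, map_mul, map_mul, hℓu] at hu
    have h1 := left_ne_zero_of_mul hu
    have h2 := right_ne_zero_of_mul hu
    refine ⟨h1, ?_, left_ne_zero_of_mul (right_ne_zero_of_mul h2),
      right_ne_zero_of_mul (right_ne_zero_of_mul h2)⟩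
    have h3 := left_ne_zero_of_mul h2
    rw [hmg_aeval hTE h1] at h3
    exact right_ne_zero_of_mul h3
  have hT3u : ∀ u : ℂ, aeval u T₃' = aeval u T₃ := fun u => by
    rw [hT₃', aeval_def, aeval_def, eval₂_map]
    congr 1
  -- the open sets
  set U₁ : Set ℂ := {u | aeval u q ≠ 0} ∩ g ⁻¹' U with hU₁
  have hopen : IsOpen {u : ℂ | aeval u q ≠ 0} :=
    isOpen_ne_fun (Polynomial.continuous_aeval q) continuous_const
  have hgd : ∀ u : ℂ, J u ≠ 0 → HasDerivAt g (algebraMap κ ℂ (a * e - b * c) / J u ^ 2) u := by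
    intro u hu
    have h1 : HasDerivAt (fun u : ℂ => algebraMap κ ℂ a * u + algebraMap κ ℂ b)
        (algebraMap κ ℂ a) u := by
      simpa using ((hasDerivAt_id u).const_mul (algebraMap κ ℂ a)).add_const (algebraMap κ ℂ b)
    have h2 : HasDerivAt (fun u : ℂ => algebraMap κ ℂ c * u + algebraMap κ ℂ e)
        (algebraMap κ ℂ c) u := by
      simpa using ((hasDerivAt_id u).const_mul (algebraMap κ ℂ c)).add_const (algebraMap κ ℂ e)
    have h3 := h1.div h2 hu
    refine h3.congr_deriv ?_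
    rw [hJ]
    simp only [map_sub, map_mul]
    congr 1
    ring
  have hU₁o : IsOpen U₁ := by
    refine ContinuousOn.isOpen_inter_preimage (fun u hu => ?_) hopen hU
    exact (hgd u (hqu u hu).1).continuousAt.continuousWithinAt
  obtain ⟨R, hR⟩ : ∃ R : ℝ, ∀ u : ℂ, aeval u q = 0 → ‖u‖ ≤ R := by
    have hfin : {u : ℂ | aeval u q = 0}.Finite := by
      have h1 : q.map (algebraMap κ ℂ) ≠ 0 :=
        (Polynomial.map_ne_zero_iff (algebraMap κ ℂ).injective).2 hq0
      refine (finite_setOfPred_isRoot h1).subset fun u hu => ?_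
      change IsRoot _ u
      rw [IsRoot, eval_map]
      exact hu
    obtain ⟨R, hR⟩ := (hfin.image fun u => ‖u‖).bddAbove
    exact ⟨R, fun u hu => hR (Set.mem_image_of_mem _ hu)⟩
  set R₁ : ℝ := max x₀ (max R 0) with hR₁
  have hray : ∀ x : ℝ, R₁ < x → (x : ℂ) ∈ U₁ := by
    intro x hx1
    have h1 : x₀ < x := lt_of_le_of_lt (le_max_left _ _) hx1
    have h2 : R < x := lt_of_le_of_lt ((le_max_left _ _).trans (le_max_right _ _)) hx1
    have h3 : 0 < x := lt_of_le_of_lt ((le_max_right _ _).trans (le_max_right _ _)) hx1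
    refine ⟨fun h4 => ?_, (hx x h1).2⟩
    have h5 := hR _ h4
    rw [Complex.norm_real, Real.norm_of_nonneg h3.le] at h5
    linarith
  set S : Set ℂ := (fun x : ℝ => (x : ℂ)) '' Set.Ioi R₁ with hS
  have hSc : IsPreconnected S :=
    isPreconnected_Ioi.image _ Complex.continuous_ofReal.continuousOn
  have hSU : S ⊆ U₁ := by
    rintro _ ⟨x, hx1, rfl⟩
    exact hray x hx1
  set p₀ : ℂ := ((R₁ + 1 : ℝ) : ℂ) with hp₀
  have hp₀S : p₀ ∈ S := ⟨R₁ + 1, by simp, rfl⟩
  set U₂ : Set ℂ := connectedComponentIn U₁ p₀ with hU₂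
  have hU₂o : IsOpen U₂ := hU₁o.connectedComponentIn
  have hU₂c : IsPreconnected U₂ := isPreconnected_connectedComponentIn
  have hU₂s : U₂ ⊆ U₁ := connectedComponentIn_subset _ _
  have hSU₂ : S ⊆ U₂ := hSc.subset_connectedComponentIn hp₀S hSU
  have hlarge : ∀ x : ℝ, R₁ < x → (x : ℂ) ∈ U₂ := fun x hx1 => hSU₂ ⟨x, hx1, rfl⟩
  have hmem : ∀ u ∈ U₂, J u ≠ 0 ∧ aeval (g u) T ≠ 0 ∧ aeval u Z.det ≠ 0 ∧
      aeval u T₃' ≠ 0 ∧ g u ∈ U := by
    intro u hu
    obtain ⟨h1, h2⟩ := hU₂s hu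
    obtain ⟨h3, h4, h5, h6⟩ := hqu u h1
    exact ⟨h3, h4, h5, h6, h2⟩
  -- the solution in the new basis
  set V₂ : ℂ → Matrix (Fin μ × ι) ι ℂ := fun u p k =>
    ∑ s, aeval u (Z.adjugate p s) / aeval u Z.det * W (g u) s k with hV₂
  have hWg : ∀ u ∈ U₂, ∀ s k, DifferentiableAt ℂ (fun u => W (g u) s k) u ∧
      deriv (fun u => W (g u) s k) u =
        deriv (fun t => W t s k) (g u) * (algebraMap κ ℂ (a * e - b * c) / J u ^ 2) := by
    intro u hu s k
    have h1 := (hWode _ (hmem u hu).2.2.2.2 s k).1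
    have h2 := HasDerivAt.comp (h₂ := fun t => W t s k) u h1.hasDerivAt (hgd u (hmem u hu).1)
    exact ⟨h2.differentiableAt, h2.deriv⟩
  have hpd : ∀ (p : κ[X]) (u : ℂ), HasDerivAt (fun u : ℂ => aeval u p)
      (aeval u (derivative p)) u := fun p u => Polynomial.hasDerivAt_aeval p u
  have hVd : ∀ u ∈ U₂, ∀ p k, DifferentiableAt ℂ (fun u => V₂ u p k) u := by
    intro u hu p k
    refine DifferentiableAt.fun_sum fun s _ => ?_
    exact (((hpd _ u).differentiableAt.div (hpd _ u).differentiableAt (hmem u hu).2.2.1)).mul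
      (hWg u hu s k).1
  have hZV : ∀ u ∈ U₂, ∀ s k, ∑ p, aeval u (Z s p) * V₂ u p k = W (g u) s k := by
    intro u hu s k
    have hdet' := (hmem u hu).2.2.1
    have h1 : ∀ s s', ∑ p, aeval u (Z s p) * aeval u (Z.adjugate p s') =
        if s = s' then aeval u Z.det else 0 := by
      intro s s'
      have h2 : (aeval u) ((Z * Z.adjugate) s s') =
          (aeval u) ((Z.det • (1 : Matrix (Fin μ × ι) (Fin μ × ι) κ[X])) s s') := by
        rw [Matrix.mul_adjugate]
      rw [Matrix.mul_apply, map_sum, Matrix.smul_apply, Matrix.one_apply] at h2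
      simp only [map_mul] at h2
      rw [h2]
      split_ifs
      · rw [smul_eq_mul, mul_one]
      · rw [smul_zero, map_zero]
    simp only [hV₂, Finset.mul_sum]
    rw [Finset.sum_comm]
    have h3 : ∀ s', ∑ p, aeval u (Z s p) * (aeval u (Z.adjugate p s') / aeval u Z.det *
        W (g u) s' k) = (∑ p, aeval u (Z s p) * aeval u (Z.adjugate p s')) *
          (W (g u) s' k / aeval u Z.det) := by
      intro s'
      rw [Finset.sum_mul]
      refine Finset.sum_congr rfl fun p _ => ?_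
      ring
    simp only [h3, h1, ite_mul, zero_mul]
    rw [Finset.sum_ite_eq, if_pos (Finset.mem_univ _), mul_div_cancel₀ _ hdet']
  -- the differential equation in the new basis
  have hVode : ∀ u ∈ U₂, ∀ p k, aeval u T₃ * deriv (fun u => V₂ u p k) u =
      ∑ l, aeval u (A p l) * V₂ u l k := by
    intro u hu p k
    obtain ⟨hJu, hTg, hdu, hT3, hgU⟩ := hmem u hu
    have hdW : ∀ s, deriv (fun u => W (g u) s k) u =
        ∑ p, (aeval u (derivative (Z s p)) * V₂ u p k +
          aeval u (Z s p) * deriv (fun u => V₂ u p k) u) := by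
      intro s
      have h1 : (fun u => W (g u) s k) =ᶠ[nhds u] fun u => ∑ p, aeval u (Z s p) * V₂ u p k := by
        filter_upwards [hU₂o.mem_nhds hu] with v hv
        exact (hZV v hv s k).symm
      have h2 : HasDerivAt (fun u => ∑ p, aeval u (Z s p) * V₂ u p k)
          (∑ p, (aeval u (derivative (Z s p)) * V₂ u p k +
            aeval u (Z s p) * deriv (fun u => V₂ u p k) u)) u :=
        HasDerivAt.fun_sum fun p _ => (hpd (Z s p) u).mul (hVd u hu p k).hasDerivAt
      rw [h1.deriv_eq, h2.deriv]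
    have hidu : ∀ s j, aeval (g u) T * J u ^ 2 * (aeval u T₃' * aeval u (derivative (Z s j)) +
        ∑ l, aeval u (Z s l) * aeval u (A l j)) = algebraMap κ ℂ (a * e - b * c) *
          aeval u T₃' * ∑ q, aeval (g u) (E.B s q) * aeval u (Z q j) := by
      intro s j
      have h1 := congrArg (fun p => aeval u p) (hid s j)
      simp only [map_mul, map_add, map_pow, aeval_C, hℓu] at h1
      rw [Matrix.mul_apply, Matrix.mul_apply, map_sum, map_sum, hmg_aeval hTE hJu] at h1
      simp only [Matrix.map_apply, map_mul] at h1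
      have h2 : ∀ l, aeval u (hmg a b c e E₁ (E.B s l)) = J u ^ E₁ * aeval (g u) (E.B s l) :=
        fun l => hmg_aeval (hBE s l) hJu
      simp only [h2] at h1
      have h3 : ∑ l, J u ^ E₁ * aeval (g u) (E.B s l) * aeval u (Z l j) =
          J u ^ E₁ * ∑ l, aeval (g u) (E.B s l) * aeval u (Z l j) := by
        rw [Finset.mul_sum]
        exact Finset.sum_congr rfl fun l _ => by ring
      rw [h3] at h1
      have h4 : J u ^ E₁ ≠ 0 := pow_ne_zero _ hJu
      apply mul_left_cancel₀ h4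
      have h5 : algebraMap κ ℂ (a * e - b * c) =
        algebraMap κ ℂ a * algebraMap κ ℂ e - algebraMap κ ℂ b * algebraMap κ ℂ c := by
        rw [map_sub, map_mul, map_mul]
      rw [h5]
      rw [map_sub, map_mul, map_mul] at h1
      have h6 : J u = algebraMap κ ℂ c * u + algebraMap κ ℂ e := rfl
      rw [← h6] at h1
      have h7 : mobv a b c e u = g u := rfl
      rw [h7] at h1
      linear_combination h1
    -- the vector equation
    have hvec : ∀ s, ∑ l, aeval u (Z s l) * (∑ j, aeval u (A l j) * V₂ u j k) =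
        ∑ l, aeval u (Z s l) * (aeval u T₃' * deriv (fun u => V₂ u l k) u) := by
      intro s
      have h1 := hWode _ hgU s k
      have h2 := (hWg u hu s k).2
      have h3 : aeval (g u) T * J u ^ 2 * deriv (fun u => W (g u) s k) u =
          algebraMap κ ℂ (a * e - b * c) * ∑ q, aeval (g u) (E.B s q) * W (g u) q k := by
        rw [h2, ← h1.2]
        field_simp
      have h4 : ∑ q, aeval (g u) (E.B s q) * W (g u) q k =
          ∑ j, (∑ q, aeval (g u) (E.B s q) * aeval u (Z q j)) * V₂ u j k := by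
        simp only [Finset.sum_mul]
        rw [Finset.sum_comm]
        refine Finset.sum_congr rfl fun q _ => ?_
        rw [← hZV u hu q k, Finset.mul_sum]
        exact Finset.sum_congr rfl fun j _ => by ring
      have h5 : aeval u T₃' * (algebraMap κ ℂ (a * e - b * c) *
          ∑ j, (∑ q, aeval (g u) (E.B s q) * aeval u (Z q j)) * V₂ u j k) =
          aeval (g u) T * J u ^ 2 * (∑ j, (aeval u T₃' * aeval u (derivative (Z s j)) +
            ∑ l, aeval u (Z s l) * aeval u (A l j)) * V₂ u j k) := by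
        rw [Finset.mul_sum, Finset.mul_sum, Finset.mul_sum]
        refine Finset.sum_congr rfl fun j _ => ?_
        have := hidu s j
        linear_combination (-V₂ u j k) * this
      have h6 : aeval (g u) T * J u ^ 2 ≠ 0 := mul_ne_zero hTg (pow_ne_zero 2 hJu)
      have h7 : aeval u T₃' * deriv (fun u => W (g u) s k) u =
          ∑ j, (aeval u T₃' * aeval u (derivative (Z s j)) +
            ∑ l, aeval u (Z s l) * aeval u (A l j)) * V₂ u j k := by
        apply mul_left_cancel₀ h6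
        rw [← h5, ← h4, ← h3]
        ring
      rw [hdW s] at h7
      have h8 : ∑ l, aeval u (Z s l) * (∑ j, aeval u (A l j) * V₂ u j k) =
          ∑ j, (∑ l, aeval u (Z s l) * aeval u (A l j)) * V₂ u j k := by
        simp only [Finset.sum_mul, Finset.mul_sum]
        rw [Finset.sum_comm]
        exact Finset.sum_congr rfl fun l _ => Finset.sum_congr rfl fun j _ => by ring
      rw [h8]
      have h9 : ∑ l, aeval u (Z s l) * (aeval u T₃' * deriv (fun u => V₂ u l k) u) =
          aeval u T₃' * ∑ p, (aeval u (derivative (Z s p)) * V₂ u p k +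
            aeval u (Z s p) * deriv (fun u => V₂ u p k) u) -
          ∑ j, aeval u T₃' * aeval u (derivative (Z s j)) * V₂ u j k := by
        rw [Finset.mul_sum, ← Finset.sum_sub_distrib]
        exact Finset.sum_congr rfl fun l _ => by ring
      rw [h9, h7, ← Finset.sum_sub_distrib]
      exact Finset.sum_congr rfl fun l _ => by ring
    -- multiply by the adjugate
    have h1 : ∀ l l', ∑ s, aeval u (Z.adjugate l s) * aeval u (Z s l') =
        if l = l' then aeval u Z.det else 0 := by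
      intro s s'
      have h2 : (aeval u) ((Z.adjugate * Z) s s') =
          (aeval u) ((Z.det • (1 : Matrix (Fin μ × ι) (Fin μ × ι) κ[X])) s s') := by
        rw [Matrix.adjugate_mul]
      rw [Matrix.mul_apply, map_sum, Matrix.smul_apply, Matrix.one_apply] at h2
      simp only [map_mul] at h2
      rw [h2]
      split_ifs
      · rw [smul_eq_mul, mul_one]
      · rw [smul_zero, map_zero]
    have h2 : ∀ F : Fin μ × ι → ℂ, ∑ s, aeval u (Z.adjugate p s) * (∑ l, aeval u (Z s l) * F l) =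
        aeval u Z.det * F p := by
      intro F
      simp only [Finset.mul_sum]
      rw [Finset.sum_comm]
      have h3 : ∀ l, ∑ s, aeval u (Z.adjugate p s) * (aeval u (Z s l) * F l) =
          (if p = l then aeval u Z.det else 0) * F l := by
        intro l
        rw [← h1, Finset.sum_mul]
        exact Finset.sum_congr rfl fun s _ => by ring
      simp only [h3, ite_mul, zero_mul]
      rw [Finset.sum_ite_eq, if_pos (Finset.mem_univ _)]
    have h3 := h2 (fun l => ∑ j, aeval u (A l j) * V₂ u j k)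
    have h4 := h2 (fun l => aeval u T₃' * deriv (fun u => V₂ u l k) u)
    simp only [hvec] at h3
    rw [h3] at h4
    have h5 := mul_left_cancel₀ hdu h4
    rw [← hT3u, ← h5]
  have hVan : ∀ p k, AnalyticOnNhd ℂ (fun u => V₂ u p k) U₂ := by
    intro p k
    exact DifferentiableOn.analyticOnNhd (fun u hu => (hVd u hu p k).differentiableWithinAt) hU₂o
  set D : ℕ := ∑ l, (f l).natDegree with hD
  have hfD : ∀ l, (f l).natDegree ≤ D := fun l =>
    Finset.single_le_sum (f := fun l => (f l).natDegree) (fun _ _ => Nat.zero_le _)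
      (Finset.mem_univ l)
  have hJan : AnalyticOnNhd ℂ J U₂ := by
    have h1 : J = fun u => aeval u ℓ := by
      funext u
      exact (hℓu u).symm
    rw [h1]
    exact DifferentiableOn.analyticOnNhd
      (fun u _ => (hpd ℓ u).differentiableAt.differentiableWithinAt) hU₂o
  have hwan : AnalyticOnNhd ℂ (fun u => J u ^ D * w (g u)) U₂ := by
    refine DifferentiableOn.analyticOnNhd (fun u hu => ?_) hU₂o
    have h1 : DifferentiableAt ℂ w (g u) := (hw.analytic _ (hmem u hu).2.2.2.2).differentiableAt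
    have h2 : DifferentiableAt ℂ g u := (hgd u (hmem u hu).1).differentiableAt
    exact (((hJan u hu).differentiableAt.pow D).mul (h1.comp u h2)).differentiableWithinAt
  obtain ⟨s₀, kk, c₁, main⟩ := mainK1U (κ := κ) (m := μ) (T := T₃) hT₃ (A := A) hG
    hU₂o hU₂c (t₀ := R₁) hlarge (w := fun u => J u ^ D * w (g u)) hwan
    (f := fun l => ℓ ^ (D * (μ - l) - D) * hmg a b c e D (f l))
    (fun u hu => by
      obtain ⟨hJu, -, -, -, hgU⟩ := hmem u hu
      have h1 := hf _ hgU
      rw [mul_pow, h1, Finset.mul_sum]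
      refine Finset.sum_congr rfl fun l _ => ?_
      rw [map_mul, map_pow, hℓu, hmg_aeval (hfD l) hJu, mul_pow, ← pow_mul, ← pow_mul]
      have h3 : (l : ℕ) < μ := l.2
      obtain ⟨e', he⟩ : ∃ e', μ = l + 1 + e' := ⟨μ - (l + 1), by omega⟩
      have h4 : D * (μ - l) - D = D * e' := by
        have h5 : μ - (l : ℕ) = e' + 1 := by omega
        rw [h5, mul_add, mul_one, Nat.add_sub_cancel]
      have h6 : D * μ = D * e' + D + D * l := by
        calc D * μ = D * (l + 1 + e') := congrArg (D * ·) he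
          _ = _ := by ring
      have h7 : algebraMap κ ℂ c * u + algebraMap κ ℂ e = J u := rfl
      have h8 : mobv a b c e u = g u := rfl
      rw [h4, h6, pow_add, pow_add, h7, h8]
      ring)
    (V := V₂) hVan hVode
    (Z := Matrix.diagonal (fun p : Fin μ × ι => ℓ ^ (D * (p.1 : ℕ))) * Z)
    (by
      rw [Matrix.det_mul, Matrix.det_diagonal]
      exact mul_ne_zero (Finset.prod_ne_zero_iff.2 fun p _ => pow_ne_zero _ hℓ0) hZ)
    (P := fun u => P (g u))
    (fun u hu l x k => by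
      simp only [Matrix.diagonal_mul, map_mul, map_pow, hℓu]
      have h1 : ∑ p, J u ^ (D * (l : ℕ)) * aeval u (Z (l, x) p) * V₂ u p k =
          J u ^ (D * (l : ℕ)) * W (g u) (l, x) k := by
        rw [← hZV u hu, Finset.mul_sum]
        exact Finset.sum_congr rfl fun p _ => by ring
      rw [h1, mul_pow, ← pow_mul, ← hWP _ (hmem u hu).2.2.2.2]
      ring)
    (fun t ht => hdet _ (hmem t ht).2.2.2.2)
  -- back to `U`
  set U₃ : Set ℂ := {t | algebraMap κ ℂ a - algebraMap κ ℂ c * t ≠ 0 ∧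
    (algebraMap κ ℂ e * t - algebraMap κ ℂ b) / (algebraMap κ ℂ a - algebraMap κ ℂ c * t) ∈ U₂}
    with hU₃
  have hΔ : algebraMap κ ℂ (a * e - b * c) ≠ 0 := by
    intro h0
    exact h ((FaithfulSMul.algebraMap_eq_zero_iff κ ℂ).1 h0)
  have hΔ' : algebraMap κ ℂ (a * e - b * c) =
      algebraMap κ ℂ a * algebraMap κ ℂ e - algebraMap κ ℂ b * algebraMap κ ℂ c := by
    rw [map_sub, map_mul, map_mul]
  have hinv : ∀ u : ℂ, J u ≠ 0 → algebraMap κ ℂ a - algebraMap κ ℂ c * g u ≠ 0 ∧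
      (algebraMap κ ℂ e * g u - algebraMap κ ℂ b) /
        (algebraMap κ ℂ a - algebraMap κ ℂ c * g u) = u := by
    intro u hu
    have h1 : g u * J u = algebraMap κ ℂ a * u + algebraMap κ ℂ b :=
      div_mul_cancel₀ _ hu
    have h2 : (algebraMap κ ℂ a - algebraMap κ ℂ c * g u) * J u =
        algebraMap κ ℂ (a * e - b * c) := by
      rw [hΔ']
      have h6 : J u = algebraMap κ ℂ c * u + algebraMap κ ℂ e := rfl
      rw [sub_mul, mul_assoc, h1, h6]
      ring
    have h3 : algebraMap κ ℂ a - algebraMap κ ℂ c * g u ≠ 0 := by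
      intro h0
      rw [h0, zero_mul] at h2
      exact hΔ h2.symm
    refine ⟨h3, ?_⟩
    rw [div_eq_iff h3]
    apply mul_right_cancel₀ hu
    have h6 : J u = algebraMap κ ℂ c * u + algebraMap κ ℂ e := rfl
    rw [sub_mul, mul_assoc, h1, mul_assoc, h2, hΔ', h6]
    ring
  have hinv' : ∀ t ∈ U₃, J ((algebraMap κ ℂ e * t - algebraMap κ ℂ b) /
      (algebraMap κ ℂ a - algebraMap κ ℂ c * t)) ≠ 0 ∧
      g ((algebraMap κ ℂ e * t - algebraMap κ ℂ b) /
      (algebraMap κ ℂ a - algebraMap κ ℂ c * t)) = t := by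
    rintro t ⟨h1, h2⟩
    have h3 : J ((algebraMap κ ℂ e * t - algebraMap κ ℂ b) /
      (algebraMap κ ℂ a - algebraMap κ ℂ c * t)) = algebraMap κ ℂ (a * e - b * c) /
        (algebraMap κ ℂ a - algebraMap κ ℂ c * t) := by
      rw [hΔ', hJ]
      simp only
      rw [eq_div_iff h1, add_mul, mul_assoc, div_mul_cancel₀ _ h1]
      ring
    refine ⟨by rw [h3]; exact div_ne_zero hΔ h1, ?_⟩
    have h4 : g ((algebraMap κ ℂ e * t - algebraMap κ ℂ b) /
      (algebraMap κ ℂ a - algebraMap κ ℂ c * t)) = (algebraMap κ ℂ a *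
        ((algebraMap κ ℂ e * t - algebraMap κ ℂ b) /
      (algebraMap κ ℂ a - algebraMap κ ℂ c * t)) + algebraMap κ ℂ b) /
        J ((algebraMap κ ℂ e * t - algebraMap κ ℂ b) /
      (algebraMap κ ℂ a - algebraMap κ ℂ c * t)) := rfl
    rw [h4, h3, div_div_eq_mul_div, div_eq_iff hΔ, add_mul, mul_assoc, div_mul_cancel₀ _ h1, hΔ']
    ring
  have hU₃U : U₃ ⊆ U := by
    intro t ht
    have h1 := (hmem _ ht.2).2.2.2.2
    rwa [(hinv' t ht).2] at h1
  have hU₃o : IsOpen U₃ := by
    have h1 : IsOpen {t : ℂ | algebraMap κ ℂ a - algebraMap κ ℂ c * t ≠ 0} :=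
      isOpen_ne_fun (by fun_prop) continuous_const
    refine ContinuousOn.isOpen_inter_preimage (f := fun t => (algebraMap κ ℂ e * t -
      algebraMap κ ℂ b) / (algebraMap κ ℂ a - algebraMap κ ℂ c * t)) ?_ h1 hU₂o
    exact ContinuousOn.div (by fun_prop) (by fun_prop) fun t ht => ht
  have hU₃n : U₃.Nonempty := by
    refine ⟨g p₀, ?_⟩
    have h1 := hinv p₀ (hmem p₀ (hSU₂ hp₀S)).1
    refine ⟨h1.1, ?_⟩
    rw [h1.2]
    exact hSU₂ hp₀S
  have hset : {u : ℂ | algebraMap κ ℂ c * u + algebraMap κ ℂ e ≠ 0 ∧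
      mobv a b c e u ∈ U₃} = U₂ := by
    ext u
    constructor
    · rintro ⟨h1, h2⟩
      have h3 := (hinv u h1).2
      have h4 := h2.2
      change (algebraMap κ ℂ e * g u - algebraMap κ ℂ b) /
        (algebraMap κ ℂ a - algebraMap κ ℂ c * g u) ∈ U₂ at h4
      rwa [h3] at h4
    · intro hu
      have h1 := hinv u (hmem u hu).1
      refine ⟨(hmem u hu).1, h1.1, ?_⟩
      change (algebraMap κ ℂ e * g u - algebraMap κ ℂ b) /
        (algebraMap κ ℂ a - algebraMap κ ℂ c * g u) ∈ U₂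
      rw [h1.2]
      exact hu
  refine count_u (E := fun δ => {i : ℕ | mobv a b c e (i : ℂ) ∈ U ∧
    HasRelationC U w P (mobv a b c e (i : ℂ)) κ δ}) (s₀ := max s₀ (2 * (⌈R₁⌉₊ + 1))) (N₁ := 1)
    (k := kk) (c₁ := c₁) fun δ s K hs hK hKE Ξ hΞ hbad => ?_
  rw [max_le_iff] at hs
  obtain ⟨hs1, hs3⟩ := hs
  have hKs : 2 * K < s := by
    have h1 : (K : ℝ) ^ 3 ≤ s := by
      refine le_trans (pow_le_pow_right₀ (by exact_mod_cast (by omega : 1 ≤ K)) ?_) hKE
      omega
    have h2 : K ^ 3 ≤ s := by exact_mod_cast h1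
    have h3 : 2 * K < K ^ 3 := by
      have h4 : K ^ 3 = K * K * K := by ring
      have h5 : 2 * 2 ≤ K * K := Nat.mul_le_mul hK hK
      have h6 : 2 * 2 * K ≤ K * K * K := Nat.mul_le_mul_right K h5
      omega
    omega
  refine main δ s K hs1 hK hKE Ξ hΞ fun u hu => ?_
  obtain ⟨i, hi, hiU, hrel⟩ := hbad u hu
  refine ⟨i, hi, ?_⟩
  have hu1 := abs_le.1 (hΞ u hu)
  have hi2 : ⌈R₁⌉₊ < i := by omega
  have h1 : R₁ < (i : ℝ) := (Nat.le_ceil _).trans_lt (by exact_mod_cast hi2)
  have h2 : (i : ℂ) ∈ U₂ := by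
    have := hlarge (i : ℝ) h1
    simpa using this
  refine ⟨h2, ?_⟩
  have h3 : HasRelationC U₃ w P (mobv a b c e (i : ℂ)) κ δ :=
    rel_restrictC hU' hU₃o hU₃n hU₃U hw.analytic hPan hrel
  have h4 := rel_mobC (n := (i : ℤ)) h (by
    have := (hmem _ h2).1
    push_cast
    exact this) D (by push_cast; exact h3)
  rw [hset] at h4
  push_cast at h4
  exact h4

end Pool.Agent.Helper79.UI
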